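import Mathlib

/-!
# Hadamard orders: basic facts

`IsHad n`: there is a Hadamard matrix of order `n`.
-/

set_option autoImplicit false

namespace Pool.Agent.HadAP

open Matrix Kronecker

/-- There is a Hadamard matrix of order `n`. -/
def IsHad (n : ℕ) : Prop :=
  ∃ H : Matrix (Fin n) (Fin n) ℤ, (∀ i j, H i j = 1 ∨ H i j = -1) ∧
    H * H.transpose = (n : ℤ) • (1 : Matrix (Fin n) (Fin n) ℤ)

theorem IsHad.of_type {ι : Type*} [Fintype ι] [DecidableEq ι] {n : ℕ}
    (hn : Fintype.card ι = n) (H : Matrix ι ι ℤ) (h1 : ∀ i j, H i j = 1 ∨ H i j = -1)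
    (h2 : H * H.transpose = (n : ℤ) • (1 : Matrix ι ι ℤ)) : IsHad n := by
  let e : ι ≃ Fin n := Fintype.equivFinOfCardEq hn
  refine ⟨H.submatrix e.symm e.symm, fun i j => h1 _ _, ?_⟩
  rw [Matrix.transpose_submatrix, Matrix.submatrix_mul_equiv, h2]
  ext i j
  simp only [Matrix.submatrix_apply, Matrix.smul_apply, Matrix.one_apply,
    e.symm.injective.eq_iff]

theorem isHad_one : IsHad 1 := ⟨fun _ _ => 1, fun _ _ => Or.inl rfl, by
  ext i j
  fin_cases i; fin_cases j
  simp [Matrix.mul_apply]⟩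

theorem isHad_two : IsHad 2 := ⟨!![1, 1; 1, -1], by decide, by decide⟩

theorem IsHad.mul {m n : ℕ} (hm : IsHad m) (hn : IsHad n) : IsHad (m * n) := by
  obtain ⟨A, hA1, hA2⟩ := hm
  obtain ⟨B, hB1, hB2⟩ := hn
  refine IsHad.of_type (ι := Fin m × Fin n) (by simp) (A ⊗ₖ B) ?_ ?_
  · rintro ⟨i, i'⟩ ⟨j, j'⟩
    simp only [Matrix.kroneckerMap_apply]
    rcases hA1 i j with h | h <;> rcases hB1 i' j' with h' | h' <;> simp [h, h']
  · rw [← Matrix.kroneckerMap_transpose, ← Matrix.mul_kronecker_mul, hA2, hB2]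
    ext ⟨i, i'⟩ ⟨j, j'⟩
    simp only [Matrix.kroneckerMap_apply, Matrix.smul_apply, Matrix.one_apply, Prod.mk.injEq,
      smul_eq_mul]
    push_cast
    split_ifs <;> simp_all

theorem isHad_two_pow (e : ℕ) : IsHad (2 ^ e) := by
  induction e with
  | zero => exact isHad_one
  | succ e ih => rw [pow_succ]; exact ih.mul isHad_two

theorem isHad_prod {α : Type*} (s : Finset α) (f : α → ℕ) (h : ∀ x ∈ s, IsHad (f x)) :
    IsHad (∏ x ∈ s, f x) := by
  classical
  induction s using Finset.induction_on with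
  | empty => simpa using isHad_one
  | insert a s ha ih =>
    rw [Finset.prod_insert ha]
    exact (h a (Finset.mem_insert_self a s)).mul
      (ih fun x hx => h x (Finset.mem_insert_of_mem hx))

end Pool.Agent.HadAP
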