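import Pool.Agent.HadAP.Rec

/-!
# Arithmetic progressions of Hadamard orders and bounded multipliers
-/

set_option autoImplicit false

namespace Pool.Agent.HadAP

/-- the product of the numbers `2 (p + 1)` -/
def cc (s : Finset ℕ) : ℕ := ∏ p ∈ s, 2 * (p + 1)

theorem cc_pos (s : Finset ℕ) : 0 < cc s := Finset.prod_pos fun p _ => by positivity

/-- If all odd prime factors of `m` lie in the finite set `s` of odd primes then `cc s * m` is a
Hadamard order. -/
theorem isHad_smooth (s : Finset ℕ) (hs : ∀ p ∈ s, p.Prime ∧ p ≠ 2) (m : ℕ) (hm : m ≠ 0)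
    (h : ∀ q, q.Prime → q ∣ m → q = 2 ∨ q ∈ s) : IsHad (cc s * m) := by
  have h2 : 2 ∉ s := fun h2 => (hs 2 h2).2 rfl
  have hm1 : m = ∏ p ∈ insert 2 s, p ^ m.factorization p := by
    conv_lhs => rw [← Nat.factorization_prod_pow_eq_self hm]
    rw [Finsupp.prod]
    refine Finset.prod_subset ?_ ?_
    · intro q hq
      rw [Nat.support_factorization, Nat.mem_primeFactors] at hq
      rw [Finset.mem_insert]
      exact h q hq.1 hq.2.1
    · intro q _ hq
      rw [Finsupp.notMem_support_iff.1 hq, pow_zero]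
  have hm2 : cc s * m = 2 ^ m.factorization 2 *
      ∏ p ∈ s, 2 * (p + 1) * p ^ m.factorization p := by
    conv_lhs => rw [hm1]
    rw [Finset.prod_insert h2, Finset.prod_mul_distrib, cc]
    ring
  rw [hm2]
  exact (isHad_two_pow _).mul (isHad_prod _ _ fun p hp => isHad_odd_prime (hs p hp).1 (hs p hp).2 _)

/-- the odd primes up to `C` -/
def oddPrimes (C : ℕ) : Finset ℕ := (Finset.range (C + 1)).filter fun p => p.Prime ∧ p ≠ 2

theorem oddPrimes_prime (C : ℕ) : ∀ p ∈ oddPrimes C, p.Prime ∧ p ≠ 2 := fun p hp => by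
  rw [oddPrimes, Finset.mem_filter] at hp
  exact hp.2

/-- bounded multipliers give a common multiplier -/
theorem bounded_to_multiple {C : ℕ} (hC : ∀ n : ℕ, 0 < n → ∃ c, 0 < c ∧ c ≤ C ∧ IsHad (c * n)) :
    ∃ N : ℕ, 0 < N ∧ ∀ k, 0 < k → IsHad (k * N) := by
  refine ⟨cc (oddPrimes C) * C.factorial, Nat.mul_pos (cc_pos _) C.factorial_pos, fun k hk => ?_⟩
  obtain ⟨c, hc, hcC, hH⟩ := hC k hk
  obtain ⟨m, hm⟩ := Nat.dvd_factorial hc hcC
  have hm0 : m ≠ 0 := by
    rintro rfl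
    exact C.factorial_ne_zero (by simpa using hm)
  have h1 : IsHad (cc (oddPrimes C) * m) := by
    refine isHad_smooth _ (oddPrimes_prime C) m hm0 fun q hq hqm => ?_
    by_cases h2 : q = 2
    · exact Or.inl h2
    · refine Or.inr ?_
      rw [oddPrimes, Finset.mem_filter, Finset.mem_range]
      have : q ∣ C.factorial := hm ▸ (hqm.mul_left c)
      exact ⟨Nat.lt_succ_of_le ((hq.dvd_factorial).1 this), hq, h2⟩
  have h2 := hH.mul h1
  have h3 : c * k * (cc (oddPrimes C) * m) = k * (cc (oddPrimes C) * C.factorial) := by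
    rw [hm]; ring
  rwa [h3] at h2

/-- every number is a product of a number whose prime factors divide `d` and a number coprime
to `d` -/
theorem exists_split {d n : ℕ} (hn : 0 < n) : ∃ m₀ m₁ : ℕ, n = m₀ * m₁ ∧ 0 < m₀ ∧ 0 < m₁ ∧
    Nat.Coprime m₁ d ∧ ∀ q, q.Prime → q ∣ m₀ → q ∣ d := by
  induction n using Nat.strong_induction_on with
  | _ n ih =>
    by_cases h : Nat.Coprime n d
    · exact ⟨1, n, by simp, one_pos, hn, h, fun q hq h1 => absurd (Nat.dvd_one.1 h1) hq.ne_one⟩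
    · obtain ⟨q, hq, hqn, hqd⟩ := Nat.Prime.not_coprime_iff_dvd.1 h
      obtain ⟨n', rfl⟩ := hqn
      have hn' : 0 < n' := Nat.pos_of_mul_pos_left hn
      obtain ⟨m₀, m₁, h1, h2, h3, h4, h5⟩ := ih n' (by
        have := hq.two_le
        nlinarith) hn'
      refine ⟨q * m₀, m₁, by rw [h1, mul_assoc], Nat.mul_pos hq.pos h2, h3, h4, fun r hr hrm => ?_⟩
      rcases hr.dvd_mul.1 hrm with h6 | h6
      · exact (((Nat.prime_dvd_prime_iff_eq hr hq).1 h6) ▸ hqd)
      · exact h5 r hr h6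

/-- a progression of Hadamard orders gives bounded multipliers -/
theorem ap_to_bounded {a d : ℕ} (ha : 0 < a) (hd : 0 < d) (h : ∀ k, IsHad (a + k * d)) :
    ∃ C : ℕ, ∀ n : ℕ, 0 < n → ∃ c, 0 < c ∧ c ≤ C ∧ IsHad (c * n) := by
  have hd0 : NeZero d := ⟨hd.ne'⟩
  -- inverses modulo `d`
  let f : ZMod d → ℕ := fun w => (w⁻¹).val + d
  obtain ⟨B, hB⟩ : ∃ B : ℕ, ∀ w : ZMod d, f w ≤ B := ⟨2 * d, fun w => by
    have := ZMod.val_lt (w⁻¹)
    simp only [f]
    omega⟩
  let s : Finset ℕ := d.primeFactors.erase 2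
  have hs : ∀ p ∈ s, p.Prime ∧ p ≠ 2 := fun p hp => by
    rw [Finset.mem_erase] at hp
    exact ⟨Nat.prime_of_mem_primeFactors hp.2, hp.1⟩
  refine ⟨a * B * cc s, fun n hn => ?_⟩
  obtain ⟨m₀, m₁, h1, h2, h3, h4, h5⟩ := exists_split (d := d) hn
  refine ⟨a * f m₁ * cc s, Nat.mul_pos (Nat.mul_pos ha (by simp only [f]; omega)) (cc_pos s),
    Nat.mul_le_mul_right _ (Nat.mul_le_mul_left _ (hB _)), ?_⟩
  have h6 : IsHad (cc s * m₀) := by
    refine isHad_smooth s hs m₀ h2.ne' fun q hq hqm => ?_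
    by_cases hq2 : q = 2
    · exact Or.inl hq2
    · exact Or.inr (Finset.mem_erase.2 ⟨hq2, Nat.mem_primeFactors.2 ⟨hq, h5 q hq hqm, hd.ne'⟩⟩)
  have h7 : IsHad (a * (f m₁ * m₁)) := by
    have h8 : ((f m₁ * m₁ : ℕ) : ZMod d) = ((1 : ℕ) : ZMod d) := by
      push_cast
      simp only [f]
      push_cast
      rw [ZMod.natCast_zmod_val, ZMod.natCast_self, add_zero]
      exact ZMod.inv_mul_of_unit _ ((ZMod.unitOfCoprime m₁ h4).isUnit)
    rw [ZMod.natCast_eq_natCast_iff] at h8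
    have h9 : 1 ≤ f m₁ * m₁ := Nat.mul_pos (by simp only [f]; omega) h3
    obtain ⟨k, hk⟩ := (Nat.modEq_iff_dvd' h9).1 h8.symm
    have h10 : a * (f m₁ * m₁) = a + (a * k) * d := by
      have : f m₁ * m₁ = 1 + d * k := by omega
      rw [this]; ring
    rw [h10]
    exact h _
  have h11 := h7.mul h6
  have h12 : a * (f m₁ * m₁) * (cc s * m₀) = a * f m₁ * cc s * n := by rw [h1]; ring
  rwa [h12] at h11

end Pool.Agent.HadAP
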