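import Pool.Agent.HadAP.Quat

/-!
# The Paley core as a skew-Hermitian matrix over the Gaussian integers
-/

set_option autoImplicit false

namespace Pool.Agent.HadAP

open Matrix Kronecker

/-- A skew-Hermitian matrix `S` with zero diagonal, other entries `±1, ±i`, zero row sums and
`S S^* = p - J`. -/
structure Core (P : Type) [Fintype P] [DecidableEq P] (S : Matrix P P GaussianInt) : Prop where
  diag : ∀ x, S x x = 0
  unit : ∀ x y, x ≠ y → IsU (S x y)
  skew : S.conjTranspose = -S
  rowsum : ∀ x, ∑ y, S x y = 0
  mul : ∀ x y, ∑ z, S x z * star (S y z) =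
    (if x = y then (Fintype.card P : GaussianInt) else 0) - 1

variable {p : ℕ} [Fact p.Prime]

theorem sum_chi (hp : p ≠ 2) (b : ZMod p) (hb : b ≠ 0) :
    ∑ x : ZMod p, quadraticChar (ZMod p) x * quadraticChar (ZMod p) (x + b) = -1 := by
  have h0 : ∑ x : ZMod p, quadraticChar (ZMod p) x = 0 :=
    quadraticChar_sum_zero (by rwa [ZMod.ringChar_zmod_n])
  have h1 : ∀ x : ZMod p, quadraticChar (ZMod p) x * quadraticChar (ZMod p) (x + b) =
      if x = 0 then 0 else quadraticChar (ZMod p) (1 + b * x⁻¹) := by
    intro x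
    split_ifs with hx
    · simp [hx]
    · have h2 : x + b = x * (1 + b * x⁻¹) := by field_simp
      rw [h2, map_mul, ← mul_assoc, ← sq, quadraticChar_sq_one hx, one_mul]
  rw [Finset.sum_congr rfl fun x _ => h1 x]
  have h3 : ∑ x : ZMod p, (if x = 0 then 0 else quadraticChar (ZMod p) (1 + b * x⁻¹)) =
      ∑ x : ZMod p, (quadraticChar (ZMod p) (1 + b * x⁻¹) - if x = 0 then 1 else 0) := by
    refine Finset.sum_congr rfl fun x _ => ?_
    split_ifs with hx
    · simp [hx]
    · simp
  rw [h3, Finset.sum_sub_distrib]
  have h4 : ∑ x : ZMod p, quadraticChar (ZMod p) (1 + b * x⁻¹) =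
      ∑ x : ZMod p, quadraticChar (ZMod p) x := by
    refine Fintype.sum_bijective (fun x : ZMod p => 1 + b * x⁻¹) ?_ _ _ fun x => rfl
    refine Finite.injective_iff_bijective.1 fun x y hxy => ?_
    simp only [add_right_inj, mul_right_inj' hb] at hxy
    exact inv_injective hxy
  rw [h4, h0]
  simp

/-- the scalar factor -/
noncomputable def eps (p : ℕ) [Fact p.Prime] : GaussianInt :=
  if quadraticChar (ZMod p) (-1) = 1 then ii else 1

theorem eps_cases : eps p = ii ∨ eps p = 1 := by
  unfold eps; split_ifs <;> simp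

theorem eps_norm : eps p * star (eps p) = 1 := by
  rcases eps_cases (p := p) with h | h <;> rw [h] <;> simp [ii, Zsqrtd.ext_iff]

/-- the Paley core -/
noncomputable def paley (p : ℕ) [Fact p.Prime] : Matrix (ZMod p) (ZMod p) GaussianInt :=
  Matrix.of fun x y => eps p * (quadraticChar (ZMod p) (x - y) : GaussianInt)

theorem paley_core (hp : p ≠ 2) : Core (ZMod p) (paley p) := by
  have hchar : ringChar (ZMod p) ≠ 2 := by rwa [ZMod.ringChar_zmod_n]
  refine ⟨fun x => by simp [paley], ?_, ?_, ?_, ?_⟩
  · intro x y hxy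
    have h1 := quadraticChar_dichotomy (sub_ne_zero.2 hxy)
    rw [paley, Matrix.of_apply]
    rcases h1 with h | h <;> rcases eps_cases (p := p) with h' | h' <;> rw [h, h'] <;>
      simp [IsU]
  · refine Matrix.ext fun x y => ?_
    have h1 : quadraticChar (ZMod p) (y - x) =
        quadraticChar (ZMod p) (-1) * quadraticChar (ZMod p) (x - y) := by
      rw [← map_mul]; congr 1; ring
    simp only [Matrix.conjTranspose_apply, paley, Matrix.of_apply, Matrix.neg_apply, h1]
    by_cases h2 : quadraticChar (ZMod p) (-1) = 1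
    · simp only [eps, h2, if_true]
      simp [ii, Zsqrtd.ext_iff]
    · have h3 : quadraticChar (ZMod p) (-1) = -1 :=
        (quadraticChar_dichotomy (by simp)).resolve_left h2
      simp only [eps, h3]
      simp
  · intro x
    simp only [paley, Matrix.of_apply]
    rw [← Finset.mul_sum, ← Int.cast_sum]
    have h1 : ∑ y : ZMod p, quadraticChar (ZMod p) (x - y) = ∑ y, quadraticChar (ZMod p) y :=
      Fintype.sum_equiv (Equiv.subLeft x) _ _ fun y => rfl
    rw [h1, quadraticChar_sum_zero hchar]
    simp
  · intro x y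
    have h1 : ∀ z : ZMod p, paley p x z * star (paley p y z) =
        ((quadraticChar (ZMod p) (x - z) * quadraticChar (ZMod p) (y - z) : ℤ) :
          GaussianInt) := by
      intro z
      simp only [paley, Matrix.of_apply, star_mul', star_intCast]
      push_cast
      linear_combination (((quadraticChar (ZMod p) (x - z) : ℤ) : GaussianInt) *
        ((quadraticChar (ZMod p) (y - z) : ℤ) : GaussianInt)) * eps_norm (p := p)
    rw [Finset.sum_congr rfl fun z _ => h1 z, ← Int.cast_sum]
    have h2 : ∑ z : ZMod p, quadraticChar (ZMod p) (x - z) * quadraticChar (ZMod p) (y - z) =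
        ∑ z : ZMod p, quadraticChar (ZMod p) z * quadraticChar (ZMod p) (z + (y - x)) := by
      refine Fintype.sum_equiv (Equiv.subLeft x) _ _ fun z => ?_
      simp only [Equiv.subLeft_apply]
      congr 2
      ring
    rw [h2]
    split_ifs with hxy
    · subst hxy
      have h3 : ∑ z : ZMod p, quadraticChar (ZMod p) z * quadraticChar (ZMod p) (z + (x - x)) =
          ∑ z : ZMod p, (1 - if z = 0 then 1 else 0) := by
        refine Finset.sum_congr rfl fun z _ => ?_
        split_ifs with hz
        · simp [hz]
        · rw [sub_self, add_zero, ← sq, quadraticChar_sq_one hz, sub_zero]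
      rw [h3, Finset.sum_sub_distrib]
      simp [ZMod.card]
    · rw [sum_chi hp _ (sub_ne_zero.2 (Ne.symm hxy))]
      simp

end Pool.Agent.HadAP
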