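import Pool.Agent.HadAP.Basic

/-!
# Complex Hadamard matrices with entries `±1, ±i`
-/

set_option autoImplicit false

namespace Pool.Agent.HadAP

open Matrix Kronecker

/-- the Gaussian integer `i` -/
def ii : GaussianInt := ⟨0, 1⟩

/-- the fourth roots of unity -/
def IsU (z : GaussianInt) : Prop := z = 1 ∨ z = -1 ∨ z = ii ∨ z = -ii

theorem IsU.one : IsU 1 := Or.inl rfl

theorem IsU.mul {z w : GaussianInt} (hz : IsU z) (hw : IsU w) : IsU (z * w) := by
  rcases hz with rfl | rfl | rfl | rfl <;> rcases hw with rfl | rfl | rfl | rfl <;>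
    simp [IsU, ii, Zsqrtd.ext_iff]

/-- There is a complex Hadamard matrix of order `n` with entries `±1, ±i`. -/
def IsQHad (n : ℕ) : Prop :=
  ∃ (ι : Type) (_ : Fintype ι) (_ : DecidableEq ι) (K : Matrix ι ι GaussianInt),
    Fintype.card ι = n ∧ (∀ i j, IsU (K i j)) ∧
    K * K.conjTranspose = (n : GaussianInt) • (1 : Matrix ι ι GaussianInt)

/-- the real `2 × 2` block of a Gaussian integer -/
def blk (z : GaussianInt) (a b : Bool) : ℤ :=
  match a, b with
  | false, false => z.re - z.im
  | false, true => z.re + z.im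
  | true, false => z.re + z.im
  | true, true => -z.re + z.im

theorem blk_isU {z : GaussianInt} (hz : IsU z) (a b : Bool) : blk z a b = 1 ∨ blk z a b = -1 := by
  rcases hz with rfl | rfl | rfl | rfl <;> cases a <;> cases b <;> simp [blk, ii]

theorem blk_mul (a b : Bool) : ∃ s : ℤ, ∀ z w : GaussianInt,
    blk z a false * blk w b false + blk z a true * blk w b true =
      if a = b then 2 * (z * star w).re else s * (2 * (z * star w).im) := by
  cases a <;> cases b
  · exact ⟨1, fun z w => by simp [blk]; ring⟩
  · exact ⟨-1, fun z w => by simp [blk]; ring⟩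
  · exact ⟨1, fun z w => by simp [blk]; ring⟩
  · exact ⟨1, fun z w => by simp [blk]; ring⟩

theorem re_sum {α : Type*} (s : Finset α) (f : α → GaussianInt) :
    (∑ x ∈ s, f x).re = ∑ x ∈ s, (f x).re := by
  classical
  induction s using Finset.induction_on with
  | empty => simp
  | insert a s ha ih => rw [Finset.sum_insert ha, Finset.sum_insert ha, ← ih]; rfl

theorem im_sum {α : Type*} (s : Finset α) (f : α → GaussianInt) :
    (∑ x ∈ s, f x).im = ∑ x ∈ s, (f x).im := by
  classical
  induction s using Finset.induction_on with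
  | empty => simp
  | insert a s ha ih => rw [Finset.sum_insert ha, Finset.sum_insert ha, ← ih]; rfl

/-- A complex Hadamard matrix of order `n` with entries `±1, ±i` gives a Hadamard matrix of order
`2 n`. -/
theorem IsQHad.isHad {n : ℕ} (h : IsQHad n) : IsHad (2 * n) := by
  obtain ⟨ι, _, _, K, hn, hU, hK⟩ := h
  refine IsHad.of_type (ι := ι × Bool) (by simp [hn, mul_comm])
    (Matrix.of fun p q => blk (K p.1 q.1) p.2 q.2) (fun p q => blk_isU (hU _ _) _ _) ?_
  ext ⟨i, a⟩ ⟨j, b⟩
  obtain ⟨s, hs⟩ := blk_mul a b
  have h1 : ∑ x, K i x * star (K j x) = if i = j then (n : GaussianInt) else 0 := by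
    have := congrFun (congrFun hK i) j
    simpa [Matrix.mul_apply, Matrix.one_apply] using this
  rw [Matrix.mul_apply, Fintype.sum_prod_type]
  have h2 : ∀ x : ι, ∑ y : Bool, (Matrix.of fun p q : ι × Bool => blk (K p.1 q.1) p.2 q.2)
      (i, a) (x, y) * (Matrix.of fun p q : ι × Bool => blk (K p.1 q.1) p.2 q.2).transpose (x, y)
      (j, b) = if a = b then 2 * (K i x * star (K j x)).re
        else s * (2 * (K i x * star (K j x)).im) := by
    intro x
    rw [← hs, Fintype.sum_bool]
    simp only [Matrix.of_apply, Matrix.transpose_apply]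
    ring
  rw [Finset.sum_congr rfl fun x _ => h2 x]
  by_cases hab : a = b
  · simp only [hab, if_true]
    rw [← Finset.mul_sum, ← re_sum, h1]
    simp only [Matrix.smul_apply, Matrix.one_apply, Prod.mk.injEq, and_true, smul_eq_mul]
    split_ifs <;> simp
  · simp only [hab, if_false]
    rw [← Finset.mul_sum, ← Finset.mul_sum, ← im_sum, h1]
    simp only [Matrix.smul_apply, Matrix.one_apply, Prod.mk.injEq, hab, and_false, if_false,
      smul_zero]
    split_ifs <;> simp

end Pool.Agent.HadAP
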