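import Pool.Agent.HadAP.Paley

/-!
# Hadamard matrices of order `2 (p + 1) p ^ e` for every odd prime `p`
-/

set_option autoImplicit false

namespace Pool.Agent.HadAP

open Matrix Kronecker

section

variable {P : Type} [Fintype P] [DecidableEq P] {S : Matrix P P GaussianInt}

/-- the all one matrix -/
def jj (P : Type) : Matrix P P GaussianInt := Matrix.of fun _ _ => 1

theorem Core.mul_conj (h : Core P S) :
    S * S.conjTranspose = (Fintype.card P : GaussianInt) • (1 : Matrix P P GaussianInt) - jj P := by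
  refine Matrix.ext fun x y => ?_
  rw [Matrix.mul_apply]
  simp only [Matrix.conjTranspose_apply]
  rw [h.mul]
  simp only [Matrix.sub_apply, Matrix.smul_apply, Matrix.one_apply, jj, Matrix.of_apply,
    smul_eq_mul]
  split_ifs <;> simp

theorem Core.mul_jj (h : Core P S) : S * jj P = 0 := by
  refine Matrix.ext fun x y => ?_
  rw [Matrix.mul_apply]
  simp [jj, h.rowsum]

omit [Fintype P] [DecidableEq P] in
theorem jj_conj : (jj P).conjTranspose = jj P := by
  refine Matrix.ext fun x y => ?_
  simp [jj]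

theorem Core.jj_mul_conj (h : Core P S) : jj P * S.conjTranspose = 0 := by
  have := congrArg Matrix.conjTranspose h.mul_jj
  rwa [Matrix.conjTranspose_mul, jj_conj, Matrix.conjTranspose_zero] at this

theorem neg_kron {P ι : Type} (A : Matrix P P GaussianInt) (B : Matrix ι ι GaussianInt) :
    (-A) ⊗ₖ B = -(A ⊗ₖ B) := by
  refine Matrix.ext fun x y => ?_
  simp [Matrix.kroneckerMap_apply]

omit [DecidableEq P] in
theorem jj_mul_jj : jj P * jj P = (Fintype.card P : GaussianInt) • jj P := by
  refine Matrix.ext fun x y => ?_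
  rw [Matrix.mul_apply]
  simp [jj]

/-- A pair of matrices which can be used for the next step. -/
structure Pair (p n : ℕ) (ι : Type) [Fintype ι] [DecidableEq ι] (X Y : Matrix ι ι GaussianInt) :
    Prop where
  card : Fintype.card ι = n
  unitX : ∀ i j, IsU (X i j)
  unitY : ∀ i j, IsU (Y i j)
  sum : (p : GaussianInt) • (X * X.conjTranspose) + Y * Y.conjTranspose =
    ((p + 1 : GaussianInt) * n) • (1 : Matrix ι ι GaussianInt)
  comm : X * Y.conjTranspose = Y * X.conjTranspose

theorem Pair.step {n : ℕ} {ι : Type} [Fintype ι] [DecidableEq ι] {X Y : Matrix ι ι GaussianInt}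
    (hS : Core P S) (h : Pair (Fintype.card P) n ι X Y) :
    Pair (Fintype.card P) (Fintype.card P * n) (P × ι) (1 ⊗ₖ Y + S ⊗ₖ X) (jj P ⊗ₖ X) := by
  have e1 : (1 ⊗ₖ Y + S ⊗ₖ X).conjTranspose = 1 ⊗ₖ Y.conjTranspose +
      S.conjTranspose ⊗ₖ X.conjTranspose := by
    rw [Matrix.conjTranspose_add, Matrix.conjTranspose_kronecker, Matrix.conjTranspose_kronecker,
      Matrix.conjTranspose_one]
  have e2 : (jj P ⊗ₖ X).conjTranspose = jj P ⊗ₖ X.conjTranspose := by
    rw [Matrix.conjTranspose_kronecker, jj_conj]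
  have e3 : (1 ⊗ₖ Y + S ⊗ₖ X) * (1 ⊗ₖ Y + S ⊗ₖ X).conjTranspose =
      1 ⊗ₖ (Y * Y.conjTranspose) + ((Fintype.card P : GaussianInt) • (1 : Matrix P P GaussianInt) -
        jj P) ⊗ₖ (X * X.conjTranspose) := by
    rw [e1]
    simp only [add_mul, mul_add, ← Matrix.mul_kronecker_mul, one_mul, mul_one]
    rw [hS.mul_conj, hS.skew, h.comm, neg_kron]
    abel
  have e4 : (jj P ⊗ₖ X) * (jj P ⊗ₖ X).conjTranspose =
      ((Fintype.card P : GaussianInt) • jj P) ⊗ₖ (X * X.conjTranspose) := by
    rw [e2, ← Matrix.mul_kronecker_mul, jj_mul_jj]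
  refine ⟨by simp [h.card], ?_, ?_, ?_, ?_⟩
  · rintro ⟨x, i⟩ ⟨y, j⟩
    simp only [Matrix.add_apply, Matrix.kroneckerMap_apply]
    by_cases hxy : x = y
    · subst hxy
      simpa [hS.diag] using h.unitY i j
    · rw [Matrix.one_apply_ne hxy, zero_mul, zero_add]
      exact (hS.unit x y hxy).mul (h.unitX i j)
  · rintro ⟨x, i⟩ ⟨y, j⟩
    simpa [jj] using h.unitX i j
  · rw [e3, e4]
    have e5 : (Fintype.card P : GaussianInt) • ((1 : Matrix P P GaussianInt) ⊗ₖ
        (Y * Y.conjTranspose) + ((Fintype.card P : GaussianInt) • (1 : Matrix P P GaussianInt) -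
        jj P) ⊗ₖ (X * X.conjTranspose)) + ((Fintype.card P : GaussianInt) • jj P) ⊗ₖ
        (X * X.conjTranspose) = (Fintype.card P : GaussianInt) • ((1 : Matrix P P GaussianInt) ⊗ₖ
        ((Fintype.card P : GaussianInt) • (X * X.conjTranspose) + Y * Y.conjTranspose)) := by
      refine Matrix.ext fun x y => ?_
      simp only [Matrix.add_apply, Matrix.smul_apply, Matrix.kroneckerMap_apply, Matrix.sub_apply,
        smul_eq_mul]
      ring
    rw [e5, h.sum]
    refine Matrix.ext fun x y => ?_
    obtain ⟨x1, x2⟩ := x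
    obtain ⟨y1, y2⟩ := y
    simp only [Matrix.smul_apply, Matrix.kroneckerMap_apply, smul_eq_mul, Matrix.one_apply,
      Prod.mk.injEq]
    push_cast
    by_cases h1 : x1 = y1 <;> by_cases h2 : x2 = y2 <;> simp only [h1, h2, and_true, and_false,
      if_true, if_false] <;> ring
  · rw [e1, e2]
    simp only [add_mul, mul_add, ← Matrix.mul_kronecker_mul, one_mul, mul_one]
    rw [hS.mul_jj, hS.jj_mul_conj, h.comm]

end

/-- The pair of order `p ^ e`. -/
theorem exists_pair {p : ℕ} [Fact p.Prime] (hp : p ≠ 2) (e : ℕ) :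
    ∃ (ι : Type) (_ : Fintype ι) (_ : DecidableEq ι) (X Y : Matrix ι ι GaussianInt),
      Pair p (p ^ e) ι X Y := by
  induction e with
  | zero =>
    refine ⟨Unit, inferInstance, inferInstance, 1, 1, ⟨by simp, fun i j => ?_, fun i j => ?_, ?_,
      rfl⟩⟩
    · simpa using IsU.one
    · simpa using IsU.one
    · simp [add_smul]
  | succ e ih =>
    obtain ⟨ι, _, _, X, Y, h⟩ := ih
    have h1 : Fintype.card (ZMod p) = p := ZMod.card p
    have h2 : Pair (Fintype.card (ZMod p)) (p ^ e) ι X Y := by rw [h1]; exact h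
    have h3 := Pair.step (paley_core hp) h2
    rw [h1] at h3
    rw [pow_succ, mul_comm]
    exact ⟨_, _, _, _, _, h3⟩

/-- The bordered core. -/
noncomputable def bord {P : Type} (S : Matrix P P GaussianInt) :
    Matrix (Option P) (Option P) GaussianInt :=
  Matrix.of fun x y => match x, y with
    | none, none => 0
    | none, some _ => 1
    | some _, none => -1
    | some x, some y => S x y

theorem bord_skew {P : Type} [Fintype P] [DecidableEq P] {S : Matrix P P GaussianInt}
    (hS : Core P S) : (bord S).conjTranspose = -bord S := by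
  refine Matrix.ext fun x y => ?_
  have h := hS.skew
  rcases x with _ | x <;> rcases y with _ | y <;> simp [bord]
  exact congrFun (congrFun h x) y

theorem bord_mul {P : Type} [Fintype P] [DecidableEq P] {S : Matrix P P GaussianInt}
    (hS : Core P S) : bord S * (bord S).conjTranspose =
      (Fintype.card P : GaussianInt) • (1 : Matrix (Option P) (Option P) GaussianInt) := by
  refine Matrix.ext fun x y => ?_
  rw [Matrix.mul_apply, Fintype.sum_option]
  rcases x with _ | x <;> rcases y with _ | y
  · simp [bord]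
  · simp only [bord, Matrix.of_apply, Matrix.conjTranspose_apply, Matrix.smul_apply]
    have : ∑ z, star (S y z) = 0 := by rw [← star_sum, hS.rowsum, star_zero]
    simp [this]
  · simp only [bord, Matrix.of_apply, Matrix.conjTranspose_apply, Matrix.smul_apply]
    simp [hS.rowsum]
  · simp only [bord, Matrix.of_apply, Matrix.conjTranspose_apply, Matrix.smul_apply]
    rw [hS.mul]
    simp [Matrix.one_apply]

theorem isQHad_odd_prime {p : ℕ} [Fact p.Prime] (hp : p ≠ 2) (e : ℕ) :
    IsQHad ((p + 1) * p ^ e) := by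
  obtain ⟨ι, _, _, X, Y, h⟩ := exists_pair hp e
  have hS := paley_core hp
  have hc : Fintype.card (ZMod p) = p := ZMod.card p
  refine ⟨Option (ZMod p) × ι, inferInstance, inferInstance,
    bord (paley p) ⊗ₖ X + 1 ⊗ₖ Y, by simp [h.card, hc], ?_, ?_⟩
  · rintro ⟨x, i⟩ ⟨y, j⟩
    simp only [Matrix.add_apply, Matrix.kroneckerMap_apply]
    by_cases hxy : x = y
    · subst hxy
      have : bord (paley p) x x = 0 := by rcases x with _ | x <;> simp [bord, hS.diag]
      rw [this]
      simpa using h.unitY i j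
    · rw [Matrix.one_apply_ne hxy, zero_mul, add_zero]
      refine IsU.mul ?_ (h.unitX i j)
      rcases x with _ | x <;> rcases y with _ | y
      · exact absurd rfl hxy
      · exact Or.inl rfl
      · exact Or.inr (Or.inl rfl)
      · exact hS.unit x y fun h => hxy (by rw [h])
  · rw [Matrix.conjTranspose_add, Matrix.conjTranspose_kronecker, Matrix.conjTranspose_kronecker,
      Matrix.conjTranspose_one]
    simp only [add_mul, mul_add, ← Matrix.mul_kronecker_mul, one_mul, mul_one]
    rw [bord_mul hS, bord_skew hS, h.comm, neg_kron, hc]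
    have e5 : ((p : GaussianInt) • (1 : Matrix (Option (ZMod p)) (Option (ZMod p)) GaussianInt)) ⊗ₖ
        (X * X.conjTranspose) + -(bord (paley p) ⊗ₖ (Y * X.conjTranspose)) +
        (bord (paley p) ⊗ₖ (Y * X.conjTranspose) + 1 ⊗ₖ (Y * Y.conjTranspose)) =
        1 ⊗ₖ ((p : GaussianInt) • (X * X.conjTranspose) + Y * Y.conjTranspose) := by
      refine Matrix.ext fun x y => ?_
      simp only [Matrix.add_apply, Matrix.smul_apply, Matrix.kroneckerMap_apply, Matrix.neg_apply,
        smul_eq_mul]
      ring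
    rw [e5, h.sum]
    refine Matrix.ext fun x y => ?_
    obtain ⟨x1, x2⟩ := x
    obtain ⟨y1, y2⟩ := y
    simp only [Matrix.smul_apply, Matrix.kroneckerMap_apply, smul_eq_mul, Matrix.one_apply,
      Prod.mk.injEq]
    push_cast
    by_cases h1 : x1 = y1 <;> by_cases h2 : x2 = y2 <;> simp only [h1, h2, and_true, and_false,
      if_true, if_false] <;> ring

/-- For every odd prime `p` and every `e` there is a Hadamard matrix of order
`2 (p + 1) p ^ e`. -/
theorem isHad_odd_prime {p : ℕ} (hp : p.Prime) (hp2 : p ≠ 2) (e : ℕ) :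
    IsHad (2 * (p + 1) * p ^ e) := by
  have : Fact p.Prime := ⟨hp⟩
  rw [mul_assoc]
  exact (isQHad_odd_prime hp2 e).isHad

end Pool.Agent.HadAP
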